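import Pool.Agent.H185.OC.Main

/-!
# MP_f95cc0_co: the growth constants of odd covers of `[n]^d` by odd proper boxes

The known lower bound `(2 + 1/(2^(n-2)-1))^d` for partitions of `[n]^d` into odd proper boxes only
uses that every point lies in an odd number of the boxes. For families with this weaker property
the minimum is determined here up to a factor polynomial in `d`, for every odd `n ≥ 3`; in
particular the growth constant is exactly `2 + 1/(2^(n-2)-1)`.

Construction: the boxes are indexed by the nonzero words of a linear code over `F₂` of dimension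
`d+1` whose coordinates are `d` blocks of length `n-1`. The zero blocks of a word are filled by
smaller odd covers, and an averaging argument (multiplication by the elements of a finite field)
gives a code in which the zero blocks are rare enough.
-/

set_option autoImplicit false

namespace Pool.Agent.Results.MP_f95cc0_co.OddCoverGrowth

open Filter

/-- `P` is an odd cover of `[n]^d` by `k` odd proper boxes: every side of every box is a subset of
`[n]` of odd size different from `[n]`, and every point of `[n]^d` lies in an odd number of the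
boxes. -/
def IsOddCover (n d k : ℕ) (P : Fin k → Fin d → Finset (Fin n)) : Prop :=
  (∀ j i, Odd (P j i).card ∧ P j i ≠ Finset.univ) ∧
  ∀ x : Fin d → Fin n, Odd (Nat.card {j : Fin k // ∀ i, x i ∈ P j i})

/-- the least number of boxes in an odd cover of `[n]^d` by odd proper boxes -/
noncomputable def godd (n d : ℕ) : ℕ :=
  sInf {k : ℕ | ∃ P : Fin k → Fin d → Finset (Fin n), IsOddCover n d k P}

/-- **Result.** Let `n ≥ 3` be odd. (1) `godd n d` is attained. (2) Lower bound for every `d`.
(3) Upper bound for every `d ≥ 1`. (4) The growth constant is `2 + 1/(2^(n-2)-1)`. -/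
theorem result (n : ℕ) (hodd : Odd n) (hn : 3 ≤ n) :
    (∀ d : ℕ, ∃ P : Fin (godd n d) → Fin d → Finset (Fin n), IsOddCover n d (godd n d) P) ∧
    (∀ d : ℕ, (2 + 1 / (2 ^ (n - 2) - 1) : ℝ) ^ d ≤ godd n d) ∧
    (∀ d : ℕ, 1 ≤ d → (godd n d : ℝ) ≤
      (2 ^ (n - 1) - 2) * (d : ℝ) ^ ((1 : ℝ) / ((n : ℝ) - 2)) *
        (2 + 1 / (2 ^ (n - 2) - 1) : ℝ) ^ d) ∧
    Tendsto (fun d : ℕ => ((godd n d : ℕ) : ℝ) ^ ((1 : ℝ) / (d : ℝ))) atTop
      (nhds (2 + 1 / (2 ^ (n - 2) - 1))) :=
  ⟨fun d => H185.OC.g_cov n d hn,
    fun d => H185.OC.lower hn hodd d _ (H185.OC.g_cov n d hn),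
    fun d hd => H185.OC.upper3 hn hodd d hd,
    H185.OC.tendsto_g hn hodd⟩

end Pool.Agent.Results.MP_f95cc0_co.OddCoverGrowth
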